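import Pool.Agent.H29.RQ.Targets
import Pool.Agent.H24.RD.MAIN

set_option autoImplicit false

/-!
# MP_c65535_nt, dependence on the degree, row MAINQ: the result from independent generators
-/

namespace Pool.Agent.H63.RQ

open Pool.Agent.H29.RQ Pool.Agent.H23.RDD Pool.Agent.H24.RD NumberField Height Finset Polynomial

/-- A root of the minimal polynomial over `L` goes to a root if the coefficients are fixed. -/
theorem maiq_root (L : IntermediateField ℚ (AlgebraicClosure ℚ))
    (F' : IntermediateField ℚ (AlgebraicClosure ℚ)) (P : L[X]) (β : AlgebraicClosure ℚ)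
    (hβ : aeval β P = 0) (σ : AlgebraicClosure ℚ ≃ₐ[F'] AlgebraicClosure ℚ)
    (hσ : ∀ n : ℕ, σ ((P.coeff n : L) : AlgebraicClosure ℚ) = ((P.coeff n : L) : AlgebraicClosure ℚ)) :
    aeval (σ β) P = 0 := by
  have h1 : aeval (σ β) P = σ (aeval β P) := by
    rw [aeval_eq_sum_range, aeval_eq_sum_range, map_sum]
    refine Finset.sum_congr rfl fun n _ => ?_
    rw [Algebra.smul_def, Algebra.smul_def, map_mul, map_pow]
    have h2 : algebraMap L (AlgebraicClosure ℚ) (P.coeff n) =
        ((P.coeff n : L) : AlgebraicClosure ℚ) := rfl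
    rw [h2, hσ n]
  rw [h1, hβ, map_zero]

theorem pf_MAINQ (h1 : T_HB) (h2 : T_LVB) (h3 : T_MBQ) (h4 : T_BAS) (h5 : T_CFS) (h6 : T_RNK) :
    T_MAINQ := by
  classical
  intro Γ hΓ S ε hε
  obtain ⟨r, g, hg, hind, hdec⟩ := h4 Γ hΓ
  have hrk : Module.finrank ℤ (Additive Γ) = r := h6 Γ r g hΓ hg hind hdec
  set F' : IntermediateField ℚ (AlgebraicClosure ℚ) :=
    IntermediateField.adjoin ℚ (Set.range fun i => (g i : AlgebraicClosure ℚ)) with hF'
  have : Algebra.IsAlgebraic ℚ (AlgebraicClosure ℚ) := AlgebraicClosure.isAlgebraic ℚ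
  have hfd : FiniteDimensional ℚ F' :=
    IntermediateField.finiteDimensional_adjoin fun x _ =>
      (Algebra.IsAlgebraic.isAlgebraic x).isIntegral
  have : NumberField F' := { to_charZero := inferInstance, to_finiteDimensional := hfd }
  have hmem : ∀ i, (g i : AlgebraicClosure ℚ) ∈ F' := fun i =>
    IntermediateField.subset_adjoin _ _ ⟨i, rfl⟩
  let γ : Fin r → F' := fun i => ⟨g i, hmem i⟩
  have hγg : ∀ i, ((γ i : F') : AlgebraicClosure ℚ) = g i := fun i => rfl
  have hγ0 : ∀ i, γ i ≠ 0 := by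
    intro i h
    have h1 := hγg i
    rw [h] at h1
    exact (g i).ne_zero (by rw [← h1]; rfl)
  have hMI : MInd F' γ := by
    refine ⟨hγ0, fun x hx => hind x ?_⟩
    apply Units.ext
    have h3 := congrArg (algebraMap F' (AlgebraicClosure ℚ)) hx
    rw [map_prod, map_one] at h3
    push_cast
    rw [← h3]
    refine Finset.prod_congr rfl fun i _ => ?_
    rw [map_zpow₀]
    rfl
  have : Algebra.IsAlgebraic F' (AlgebraicClosure ℚ) := Algebra.IsAlgebraic.tower_top (K := ℚ) F'
  set S' : Finset ℕ := S.filter Nat.Prime with hS'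
  have hSp : ∀ p ∈ S', p.Prime := fun p hp => (Finset.mem_filter.mp hp).2
  obtain ⟨c, hc, hmain⟩ := h3 F' (AlgebraicClosure ℚ) r γ hMI S' hSp ε hε
  refine ⟨c, hc, ?_⟩
  intro L hL β z hz hβz hnot
  have : Algebra.IsAlgebraic L (AlgebraicClosure ℚ) := Algebra.IsAlgebraic.tower_top (K := ℚ) L
  have hint : IsIntegral L β := (Algebra.IsAlgebraic.isAlgebraic β).isIntegral
  have hβ0 : β ≠ 0 := left_ne_zero_of_mul hβz
  obtain ⟨N, K, hN, hKN, hKS, hcoef⟩ := h5 Γ S S'
    (fun p hp hpp => Finset.mem_filter.mpr ⟨hp, hpp⟩) F' r g γ hγg hdec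
    ((minpoly L β).support.image fun n => (((minpoly L β).coeff n : L) : AlgebraicClosure ℚ)) (by
      intro y hy
      obtain ⟨n, _, rfl⟩ := Finset.mem_image.mp hy
      rw [← hL]
      exact ((minpoly L β).coeff n).2)
  have hfin : Module.finrank L (IntermediateField.adjoin L {β}) = (minpoly L β).natDegree :=
    IntermediateField.adjoin.finrank hint
  have hCj : Cj F' (AlgebraicClosure ℚ) (Lv F' (AlgebraicClosure ℚ) γ N K)
      (Module.finrank L (IntermediateField.adjoin L {β})) β := by
    refine ⟨((minpoly L β).aroots (AlgebraicClosure ℚ)).toFinset, ?_, ?_⟩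
    · rw [hfin]
      exact (Multiset.toFinset_card_le _).trans ((Polynomial.card_roots' _).trans
          (Polynomial.natDegree_map_le))
    · intro σ hσ
      rw [Multiset.mem_toFinset, Polynomial.mem_aroots]
      refine ⟨minpoly.ne_zero hint, maiq_root L F' _ β (minpoly.aeval L β) σ fun n => ?_⟩
      by_cases hn : (minpoly L β).coeff n = 0
      · rw [hn]
        exact map_zero σ
      · exact hσ _ (hcoef _ (Finset.mem_image.mpr
          ⟨n, Polynomial.mem_support_iff.mpr hn, rfl⟩))
  have hpos : 0 < Module.finrank L (IntermediateField.adjoin L {β}) := by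
    rw [hfin]
    exact minpoly.natDegree_pos hint
  rw [hrk]
  refine hmain N K _ hN hKN hKS hpos β z hβ0 hCj ?_ ?_
  · exact (main_dv Γ F' r g hg γ hγg hdec z).mpr hz
  · intro h
    exact hnot ((main_dv Γ F' r g hg γ hγg hdec _).mp h)

end Pool.Agent.H63.RQ
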