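import Pool.Agent.H29.RQ.Targets

set_option autoImplicit false

/-!
# MP_c65535_nt, dependence on the degree, row MBQ: the theorem for independent generators
-/

namespace Pool.Agent.H63.RQ

open Pool.Agent.H29.RQ Pool.Agent.H23.RDD Pool.Agent.H24.RD NumberField Height Finset Polynomial

theorem mbq_dv_pow {F Ω : Type} [Field F] [Field Ω] [Algebra F Ω] {r : ℕ} {γ : Fin r → F} {g : Ω}
    (hg : g ∈ Dv F Ω γ) (e : ℕ) : g ^ e ∈ Dv F Ω γ := by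
  obtain ⟨h0, n, hn, x, hx⟩ := hg
  refine ⟨pow_ne_zero _ h0, n, hn, fun i => x i * e, ?_⟩
  rw [← pow_mul, mul_comm, pow_mul, hx, ← Finset.prod_pow]
  refine Finset.prod_congr rfl fun i _ => ?_
  rw [zpow_mul, zpow_natCast]

theorem mbq_dv_of_pow {F Ω : Type} [Field F] [Field Ω] [Algebra F Ω] {r : ℕ} {γ : Fin r → F} {g : Ω}
    (h0 : g ≠ 0) (e : ℕ) (he : 0 < e) (hg : g ^ e ∈ Dv F Ω γ) : g ∈ Dv F Ω γ := by
  obtain ⟨-, n, hn, x, hx⟩ := hg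
  exact ⟨h0, e * n, Nat.mul_pos he hn, x, by rw [pow_mul]; exact hx⟩

/-- the exponents -/
theorem mbq_exp (r : ℝ) (hr : 0 ≤ r) (e ε : ℝ) (he0 : 0 < e) (he1 : e ≤ 1)
    (he : e * (2 * (r + 1) ^ 2) ≤ ε) : (1 + r * e) * ((1 + e) * (r + 1)) ≤ r + 1 + ε := by
  have h1 : r * e ^ 2 ≤ r * e := mul_le_mul_of_nonneg_left (by nlinarith) hr
  have h2 : (1 + r * e) * ((1 + e) * (r + 1)) =
      (r + 1) + (r + 1) * (e + r * e + r * e ^ 2) := by ring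
  have h3 : (r + 1) * (e + r * e + r * e ^ 2) ≤ (r + 1) * (2 * (r + 1) * e) := by
    refine mul_le_mul_of_nonneg_left ?_ (by linarith)
    nlinarith
  nlinarith

theorem pf_MBQ (h1 : T_HB) (h2 : T_REDQ) (h3 : T_DSQ) (h4 : T_FINQ) : T_MBQ := by
  intro F Ω _ _ _ _ _ _ _ r γ hγ S hS ε hε
  have : Algebra.IsAlgebraic ℚ Ω := Algebra.IsAlgebraic.trans ℚ F Ω
  obtain ⟨hnn, -, -, hpow, -, -, -⟩ := h1 Ω
  have hr0 : (0 : ℝ) ≤ (r : ℝ) := Nat.cast_nonneg r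
  have hr2 : (0 : ℝ) < 2 * ((r : ℝ) + 1) ^ 2 := by positivity
  set e : ℝ := min 1 (ε / (2 * ((r : ℝ) + 1) ^ 2)) with hedef
  have he0 : 0 < e := lt_min one_pos (div_pos hε hr2)
  have he1 : e ≤ 1 := min_le_left _ _
  have heε : e * (2 * ((r : ℝ) + 1) ^ 2) ≤ ε := by
    have := min_le_right 1 (ε / (2 * ((r : ℝ) + 1) ^ 2))
    rw [← hedef, le_div_iff₀ hr2] at this
    exact this
  have heε1 : e ≤ ε := by
    have h5 : (1 : ℝ) ≤ 2 * ((r : ℝ) + 1) ^ 2 := by nlinarith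
    exact (le_mul_of_one_le_right he0.le h5).trans heε
  obtain ⟨c1, hc1, hds⟩ := h3 F Ω r γ hγ S hS e he0
  obtain ⟨c2, hc2, hfin⟩ := h4 F Ω r γ hγ e he0
  set E : ℝ := (1 + e) * ((r : ℝ) + 1) with hE
  have hE0 : 0 < E := by positivity
  set C3 : ℝ := ((c1⁻¹) ^ r) ^ E with hC3
  have hC3pos : 0 < C3 := Real.rpow_pos_of_pos (pow_pos (inv_pos.mpr hc1) r) _
  refine ⟨min c1 (c2 / C3), lt_min hc1 (div_pos hc2 hC3pos), ?_⟩
  intro N K d hN hK hKS hd β g hβ hCj hg hβg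
  obtain ⟨N₁, a, d₁, hN₁, hKN₁, ha, hd₁, had, hCj₁, hRed₁⟩ := h2 F Ω r γ hγ.1 N K d hN hK hd β hβ hCj
  have hrep : RepD F Ω γ N₁ K d₁ ((β * g) ^ a) :=
    ⟨β ^ a, pow_ne_zero _ hβ, hCj₁, hRed₁, g ^ a, mbq_dv_pow hg _, mul_pow _ _ _⟩
  have hh : absLogHeight₁ ((β * g) ^ a) = a * absLogHeight₁ (β * g) := hpow _ _
  have hh0 : 0 ≤ absLogHeight₁ (β * g) := hnn _
  have hda : (1 : ℝ) ≤ (a : ℝ) := by exact_mod_cast ha
  have hdd : (1 : ℝ) ≤ (d₁ : ℝ) := by exact_mod_cast hd₁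
  have hdd0 : (0 : ℝ) < (d₁ : ℝ) := by linarith
  have ha0 : (0 : ℝ) < (a : ℝ) := by linarith
  have hX : (1 : ℝ) ≤ (r : ℝ) + 1 + ε := by linarith
  have hX0 : (0 : ℝ) ≤ (r : ℝ) + 1 + ε := by linarith
  -- `a * d₁ ^ (r + 1 + ε) ≤ d ^ (r + 1 + ε)`
  have hadd : (a : ℝ) * (d₁ : ℝ) ^ ((r : ℝ) + 1 + ε) ≤ (d : ℝ) ^ ((r : ℝ) + 1 + ε) := by
    have e1 : (a : ℝ) ≤ (a : ℝ) ^ ((r : ℝ) + 1 + ε) := by
      conv_lhs => rw [← Real.rpow_one (a : ℝ)]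
      exact Real.rpow_le_rpow_of_exponent_le hda hX
    have e2 : ((a : ℝ) * d₁) ^ ((r : ℝ) + 1 + ε) ≤ (d : ℝ) ^ ((r : ℝ) + 1 + ε) := by
      refine Real.rpow_le_rpow (by positivity) ?_ hX0
      exact_mod_cast had
    rw [Real.mul_rpow ha0.le hdd0.le] at e2
    exact (mul_le_mul_of_nonneg_right e1 (Real.rpow_nonneg hdd0.le _)).trans e2
  by_cases hcase : absLogHeight₁ ((β * g) ^ a) < c1 / (d₁ : ℝ) ^ (1 + e)
  · -- the descent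
    obtain ⟨N0, hN0, hN0c, hrest⟩ := hds d₁ hd₁
    obtain ⟨N', hN', hR⟩ := hrest N₁ K hN₁ hKN₁ hKS _ hrep hcase
    have hnd : (β * g) ^ a ∉ Dv F Ω γ := fun h =>
      hβg (mbq_dv_of_pow (mul_ne_zero hβ hg.1) _ ha h)
    have h5 := hfin (N0 * N') N0 d₁ (Nat.mul_pos hN0 hN') (Dvd.intro _ rfl) hd₁ _ hR hnd
    have hN0' : (N0 : ℝ) ≤ c1⁻¹ * (d₁ : ℝ) ^ e := by
      rw [inv_mul_eq_div, le_div_iff₀ hc1]
      linarith
    have h6 : (N0 : ℝ) ^ r * d₁ ≤ (c1⁻¹) ^ r * (d₁ : ℝ) ^ (1 + r * e) := by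
      have e1 : (N0 : ℝ) ^ r ≤ (c1⁻¹ * (d₁ : ℝ) ^ e) ^ r :=
        pow_le_pow_left₀ (Nat.cast_nonneg _) hN0' r
      have e2 : (c1⁻¹ * (d₁ : ℝ) ^ e) ^ r = (c1⁻¹) ^ r * (d₁ : ℝ) ^ (r * e) := by
        rw [mul_pow, ← Real.rpow_natCast ((d₁ : ℝ) ^ e), ← Real.rpow_mul hdd0.le, mul_comm e]
      calc (N0 : ℝ) ^ r * d₁ ≤ ((c1⁻¹) ^ r * (d₁ : ℝ) ^ (r * e)) * d₁ := by
            rw [← e2]
            exact mul_le_mul_of_nonneg_right e1 hdd0.le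
        _ = (c1⁻¹) ^ r * (d₁ : ℝ) ^ (1 + r * e) := by
            rw [Real.rpow_add hdd0, Real.rpow_one]
            ring
    have h7 : ((N0 : ℝ) ^ r * d₁) ^ E ≤ C3 * (d₁ : ℝ) ^ ((r : ℝ) + 1 + ε) := by
      calc ((N0 : ℝ) ^ r * d₁) ^ E ≤ ((c1⁻¹) ^ r * (d₁ : ℝ) ^ (1 + r * e)) ^ E :=
            Real.rpow_le_rpow (by positivity) h6 hE0.le
        _ = C3 * (d₁ : ℝ) ^ ((1 + r * e) * E) := by
            rw [Real.mul_rpow (pow_pos (inv_pos.mpr hc1) r).le (Real.rpow_nonneg hdd0.le _),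
              ← Real.rpow_mul hdd0.le]
        _ ≤ C3 * (d₁ : ℝ) ^ ((r : ℝ) + 1 + ε) := by
            refine mul_le_mul_of_nonneg_left ?_ hC3pos.le
            exact Real.rpow_le_rpow_of_exponent_le hdd (mbq_exp r hr0 e ε he0 he1 heε)
    have h8 : c2 ≤ absLogHeight₁ (β * g) * (d : ℝ) ^ ((r : ℝ) + 1 + ε) * C3 := by
      calc c2 ≤ absLogHeight₁ ((β * g) ^ a) * ((N0 : ℝ) ^ r * d₁) ^ E := h5
        _ ≤ absLogHeight₁ ((β * g) ^ a) * (C3 * (d₁ : ℝ) ^ ((r : ℝ) + 1 + ε)) :=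
            mul_le_mul_of_nonneg_left h7 (hnn _)
        _ = absLogHeight₁ (β * g) * (a * (d₁ : ℝ) ^ ((r : ℝ) + 1 + ε)) * C3 := by
            rw [hh]
            ring
        _ ≤ absLogHeight₁ (β * g) * (d : ℝ) ^ ((r : ℝ) + 1 + ε) * C3 :=
            mul_le_mul_of_nonneg_right (mul_le_mul_of_nonneg_left hadd hh0) hC3pos.le
    refine (min_le_right _ _).trans ?_
    rw [div_le_iff₀ hC3pos]
    exact h8
  · rw [not_lt] at hcase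
    have hpd : 0 < (d₁ : ℝ) ^ (1 + e) := Real.rpow_pos_of_pos hdd0 _
    rw [div_le_iff₀ hpd, hh] at hcase
    refine (min_le_left _ _).trans ?_
    calc c1 ≤ a * absLogHeight₁ (β * g) * (d₁ : ℝ) ^ (1 + e) := hcase
      _ ≤ a * absLogHeight₁ (β * g) * (d₁ : ℝ) ^ ((r : ℝ) + 1 + ε) := by
          refine mul_le_mul_of_nonneg_left ?_ (mul_nonneg ha0.le hh0)
          exact Real.rpow_le_rpow_of_exponent_le hdd (by linarith)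
      _ = absLogHeight₁ (β * g) * (a * (d₁ : ℝ) ^ ((r : ℝ) + 1 + ε)) := by ring
      _ ≤ absLogHeight₁ (β * g) * (d : ℝ) ^ ((r : ℝ) + 1 + ε) :=
          mul_le_mul_of_nonneg_left hadd hh0

end Pool.Agent.H63.RQ
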