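import Pool.Agent.H29.RQ.Targets

set_option autoImplicit false

/-!
# MP_c65535_nt, dependence on the degree, row NUM: choice of the parameter `j`
-/

namespace Pool.Agent.H63.RQ

open Pool.Agent.H29.RQ Pool.Agent.H23.RDD Pool.Agent.H24.RD NumberField Height Finset Polynomial

theorem exists_j0 (p : ℕ) (hp : 2 ≤ p) (a b : ℝ) (ha : 0 < a) (hb : 0 < b) :
    ∃ j0 : ℕ, ∀ j : ℕ, j0 ≤ j → a * ((j : ℝ) + 1) ≤ (p : ℝ) ^ j * b := by
  have hp1 : (1 : ℝ) < (p : ℝ) := by exact_mod_cast (by omega : 1 < p)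
  have hp0 : (0 : ℝ) < (p : ℝ) := by linarith
  have h := (tendsto_pow_const_div_const_pow_of_one_lt 1 hp1).comp (Filter.tendsto_add_atTop_nat 1)
  have h1 : 0 < b / (a * p) := div_pos hb (mul_pos ha hp0)
  have h2 := h.eventually_le_const h1
  obtain ⟨j0, hj0⟩ := Filter.eventually_atTop.mp h2
  refine ⟨j0, fun j hj => ?_⟩
  have h3 := hj0 j hj
  simp only [Function.comp, pow_one] at h3
  have hpp : (0 : ℝ) < (p : ℝ) ^ (j + 1) := pow_pos hp0 _
  rw [div_le_div_iff₀ hpp (mul_pos ha hp0)] at h3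
  push_cast at h3
  rw [pow_succ] at h3
  have h4 : (a * ((j : ℝ) + 1)) * p ≤ ((p : ℝ) ^ j * b) * p := by nlinarith
  exact le_of_mul_le_mul_right h4 hp0

theorem pf_NUM : T_NUM := by
  intro p hp A ε hε
  have hp1 : (1 : ℝ) < (p : ℝ) := by exact_mod_cast (by omega : 1 < p)
  have hp0 : (0 : ℝ) < (p : ℝ) := by linarith
  have hlp : 0 < Real.log p := Real.log_pos hp1
  obtain ⟨j0, hj0⟩ := exists_j0 p hp (4 * A * Real.log p + 1 + 2 * Real.log p) (Real.log p)
    (by positivity) hlp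
  have hA1 : (0 : ℝ) < (A : ℝ) + 1 := by positivity
  set δ : ℝ := ε / ((A : ℝ) + 1) with hδdef
  have hδ : 0 < δ := div_pos hε hA1
  set K : ℝ := 1 + 4 * p / (Real.log p * δ) with hK
  have hKpos : 0 < K := by positivity
  refine ⟨1 / ((p : ℝ) ^ (A * (j0 + 1)) * K ^ A), by positivity, fun d hd => ?_⟩
  have hd1 : (1 : ℝ) ≤ (d : ℝ) := by exact_mod_cast hd
  have hd0 : (0 : ℝ) < (d : ℝ) := by linarith
  have hL : 0 ≤ Real.log d := Real.log_nonneg hd1
  -- the least `t`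
  have hex : ∃ t : ℕ, 4 * Real.log d ≤ (p : ℝ) ^ t * Real.log p := by
    obtain ⟨t, ht⟩ := pow_unbounded_of_one_lt (4 * Real.log d / Real.log p) hp1
    refine ⟨t, ?_⟩
    have := (div_lt_iff₀ hlp).mp ht
    exact this.le
  classical
  set t := Nat.find hex with htdef
  have ht : 4 * Real.log d ≤ (p : ℝ) ^ t * Real.log p := Nat.find_spec hex
  have htb : (p : ℝ) ^ t ≤ 1 + 4 * p * Real.log d / Real.log p := by
    rcases Nat.eq_zero_or_pos t with h0 | h0
    · rw [h0, pow_zero]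
      have : 0 ≤ 4 * p * Real.log d / Real.log p := by positivity
      linarith
    · have h1 : ¬ (4 * Real.log d ≤ (p : ℝ) ^ (t - 1) * Real.log p) := Nat.find_min hex (by omega)
      rw [not_le] at h1
      have h2 : (p : ℝ) ^ t = (p : ℝ) ^ (t - 1) * p := by
        rw [← pow_succ]
        congr 1
        omega
      have h3 : (p : ℝ) ^ (t - 1) < 4 * Real.log d / Real.log p := by
        rw [lt_div_iff₀ hlp]
        exact h1
      have h4 : (p : ℝ) ^ t ≤ 4 * Real.log d / Real.log p * p := by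
        rw [h2]
        exact mul_le_mul_of_nonneg_right h3.le hp0.le
      have h5 : 4 * Real.log d / Real.log p * p = 4 * p * Real.log d / Real.log p := by ring
      linarith
  refine ⟨j0 + t, ?_, ?_⟩
  · have hlog : Real.log (d * (p : ℝ) ^ (A * (j0 + t + 1))) =
        Real.log d + (A * ((j0 : ℝ) + t + 1)) * Real.log p := by
      rw [Real.log_mul hd0.ne' (pow_pos hp0 _).ne', Real.log_pow]
      push_cast
      ring
    rw [hlog]
    have h1 := hj0 (j0 + t) (Nat.le_add_right _ _)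
    have h2 : (p : ℝ) ^ t ≤ (p : ℝ) ^ (j0 + t) :=
      pow_le_pow_right₀ hp1.le (Nat.le_add_left _ _)
    have h3 : (p : ℝ) ^ t * Real.log p ≤ (p : ℝ) ^ (j0 + t) * Real.log p :=
      mul_le_mul_of_nonneg_right h2 hlp.le
    push_cast at h1
    have h4 : (0 : ℝ) ≤ (j0 : ℝ) + t := by positivity
    have h5 : 0 ≤ ((j0 : ℝ) + t) * (1 + 2 * Real.log p) := mul_nonneg h4 (by linarith)
    nlinarith
  · have hlogd : Real.log d ≤ (d : ℝ) ^ δ / δ := Real.log_le_rpow_div hd0.le hδ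
    have hdδ : 1 ≤ (d : ℝ) ^ δ := Real.one_le_rpow hd1 hδ.le
    have h1 : (p : ℝ) ^ t ≤ K * (d : ℝ) ^ δ := by
      have h2 : 4 * p * Real.log d / Real.log p ≤ 4 * p / (Real.log p * δ) * (d : ℝ) ^ δ := by
        calc 4 * p * Real.log d / Real.log p ≤ 4 * p * ((d : ℝ) ^ δ / δ) / Real.log p := by
              gcongr
          _ = 4 * p / (Real.log p * δ) * (d : ℝ) ^ δ := by
              field_simp
      rw [hK]
      nlinarith
    have h2 : ((p : ℝ) ^ t) ^ A ≤ K ^ A * (d : ℝ) ^ ε := by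
      calc ((p : ℝ) ^ t) ^ A ≤ (K * (d : ℝ) ^ δ) ^ A := pow_le_pow_left₀ (by positivity) h1 A
        _ = K ^ A * ((d : ℝ) ^ δ) ^ A := mul_pow _ _ _
        _ ≤ K ^ A * (d : ℝ) ^ ε := by
          refine mul_le_mul_of_nonneg_left ?_ (pow_pos hKpos A).le
          rw [← Real.rpow_natCast, ← Real.rpow_mul hd0.le]
          refine Real.rpow_le_rpow_of_exponent_le hd1 ?_
          rw [hδdef, div_mul_eq_mul_div, div_le_iff₀ hA1]
          nlinarith
    have h3 : (p : ℝ) ^ (A * (j0 + t + 1)) = (p : ℝ) ^ (A * (j0 + 1)) * ((p : ℝ) ^ t) ^ A := by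
      rw [← pow_mul, ← pow_add]
      congr 1
      ring
    have h4 : 0 < (p : ℝ) ^ (A * (j0 + 1)) := pow_pos hp0 _
    have h5 : 0 < K ^ A := pow_pos hKpos A
    rw [h3, div_mul_eq_mul_div, one_mul, div_le_iff₀ (mul_pos h4 h5)]
    calc (p : ℝ) ^ (A * (j0 + 1)) * ((p : ℝ) ^ t) ^ A
        ≤ (p : ℝ) ^ (A * (j0 + 1)) * (K ^ A * (d : ℝ) ^ ε) :=
          mul_le_mul_of_nonneg_left h2 h4.le
      _ = (d : ℝ) ^ ε * ((p : ℝ) ^ (A * (j0 + 1)) * K ^ A) := by ring

end Pool.Agent.H63.RQ
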